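import Mathlib
import Pool.Agent.Y939.WN.Large
import Pool.Agent.H248R5.Gen
import Pool.Agent.H248R6.Dim

set_option autoImplicit false

/-!
# Every vector of multiplicities, outside a window: nonspecial, smooth general member

Let `w` be ANY vector of `n` multiplicities, `S` a set of points and `μ` a number with `w i ≤ μ` for
`i ∈ S` and `w i ≤ 1` for `i ∉ S` (for instance all points and `μ = max w i`), and
`∑_S w i + 4 |(d + 2).choose 2 - ∑_S (w i + 1).choose 2| ≥ 25000 (μ + 1) ^ 2`. For general points of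
the complex projective plane the system `|d H - ∑ w i E i|` is nonspecial, and if
`∑ (w i + 1).choose 2 ≤ (d + 2).choose 2`, then for all `u ≤ w` the system `|d H - ∑ u i E i|` is
nonspecial and the general member of `|(d + 1) H - ∑ u i E i|` is a smooth curve on the blow-up. If
`∑ w i ≥ 25000 (max w i + 1) ^ 2`, this applies to every degree `d`.
-/

namespace Pool.Agent.Results.MP_0421d9_ag.EveryVectorLargeSmooth

open Pool.Agent Finset Pool.Agent.H248R5 Pool.Agent.H248R6 Pool.Agent.Y939.WN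

theorem surj_of {n : ℕ} {w u : Fin n → ℕ} {P : Fin n → Fin 2 → ℂ} {d : ℕ}
    (h : H932R3.ExpDim ℂ w P d) (hd : ∑ i, (w i + 1).choose 2 ≤ (d + 2).choose 2)
    (hu : ∀ i, u i ≤ w i) : Function.Surjective (ev u P d) := by
  refine surj_mono hu (surj_of_ind ?_)
  have h1 : Module.finrank ℂ ↥(forms w P d) = (d + 2).choose 2 - ∑ i, (w i + 1).choose 2 := h
  omega

theorem result (n d μ : ℕ) (w : Fin n → ℕ) (S : Finset (Fin n)) (h1 : ∀ i ∈ S, w i ≤ μ)
    (h2 : ∀ i ∉ S, w i ≤ 1)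
    (h3 : 25000 * ((μ : ℤ) + 1) ^ 2 ≤ ∑ i ∈ S, (w i : ℤ) +
      4 * |((d + 2).choose 2 : ℤ) - ∑ i ∈ S, ((w i + 1).choose 2 : ℤ)|) :
    ∃ F : MvPolynomial (Fin n × Fin 2) ℂ, F ≠ 0 ∧
      ∀ P : Fin n → Fin 2 → ℂ,
        MvPolynomial.eval (fun ij : Fin n × Fin 2 => P ij.1 ij.2) F ≠ 0 →
          Module.finrank ℂ ↥(forms w P d) = (d + 2).choose 2 - ∑ i, (w i + 1).choose 2 ∧
          (∑ i, (w i + 1).choose 2 ≤ (d + 2).choose 2 → ∀ u : Fin n → ℕ, (∀ i, u i ≤ w i) →
            Module.finrank ℂ ↥(forms u P d) = (d + 2).choose 2 - ∑ i, (u i + 1).choose 2 ∧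
            GeneralMember (forms u P (d + 1)) (SmoothMember u P)) := by
  classical
  obtain ⟨F, hF, hF'⟩ := Pool.Agent.TH442.NF.to_open (d := d) (w := w)
    fun {K} _ _ P hP => large_exp ⟨S, μ, h1, h2, h3⟩ hP
  refine ⟨F.map (algebraMap ℚ ℂ) * disc ℂ n, mul_ne_zero (H932R3.map_ne_zero_of hF)
    (disc_ne ℂ n), fun P hP => ?_⟩
  rw [map_mul, MvPolynomial.eval_map] at hP
  have h3 := hF' (L := ℂ) P (left_ne_zero_of_mul hP)
  refine ⟨h3, fun hd u hu => ⟨?_, ?_⟩⟩
  · have h4 := finrank_of_surj (surj_of h3 hd hu)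
    omega
  · exact general_smooth (inj_of_disc (right_ne_zero_of_mul hP))
      (finrank_of_surj (surj_of h3 hd hu)).le

end Pool.Agent.Results.MP_0421d9_ag.EveryVectorLargeSmooth
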