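import Mathlib
import Pool.Agent.Y536.SH.OpenW

set_option autoImplicit false

/-!
# Multiplicities in an interval: nonspecial in every degree, smooth down to the first one

General points of the complex projective plane with multiplicities `v i`, `i = 1, …, n`, in an
interval `[m, m + s]`, where `1 ≤ m`, `1000 (s + 2) ≤ √n` and `2000000 (s + 2) ^ 3 ≤ m √n`.

Then `|d H - ∑ v i E i|` is nonspecial for EVERY `d`, and for all `u i ≤ v i` and every `d` with
`∑ (v i + 1).choose 2 + max v < (d + 2).choose 2` the system `|d H - ∑ u i E i|` is nonspecial and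
its general member is a smooth curve on the blow-up. For `u = v` these are all the systems of
dimension `h⁰ > max v`: the only other nonempty system can be the one of the smallest degree, and
only if `1 ≤ h⁰ ≤ max v` for it.
-/

namespace Pool.Agent.Results.MP_0421d9_ag.NearlyEqualSmooth

open Finset Pool.Agent.H248R5 Pool.Agent.H248R6

theorem result (n m s : ℕ) (v : Fin n → ℕ) (hm : 1 ≤ m) (hv : ∀ i, m ≤ v i ∧ v i ≤ m + s)
    (h1 : 1000 * ((s : ℝ) + 2) ≤ √(n : ℝ)) (h2 : 2000000 * ((s : ℝ) + 2) ^ 3 ≤ m * √(n : ℝ)) :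
    ∃ F : MvPolynomial (Fin n × Fin 2) ℂ, F ≠ 0 ∧
      ∀ P : Fin n → Fin 2 → ℂ,
        MvPolynomial.eval (fun ij : Fin n × Fin 2 => P ij.1 ij.2) F ≠ 0 →
        ∀ d : ℕ,
          Module.finrank ℂ ↥(forms v P d) = (d + 2).choose 2 - ∑ i, (v i + 1).choose 2 ∧
          ((∀ k, ∑ i, (v i + 1).choose 2 + v k < (d + 2).choose 2) →
            ∀ u : Fin n → ℕ, (∀ i, u i ≤ v i) →
              Module.finrank ℂ ↥(forms u P d) = (d + 2).choose 2 - ∑ i, (u i + 1).choose 2 ∧
              GeneralMember (forms u P d) (SmoothMember u P)) := by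
  obtain ⟨F, hF, hF'⟩ := Pool.Agent.Y536.SH.near_smooth (K := ℂ) hm hv h1 h2
  refine ⟨F.map (algebraMap ℚ ℂ), Pool.Agent.H932R3.map_ne_zero_of hF, fun P hP d => ?_⟩
  rw [MvPolynomial.eval_map] at hP
  obtain ⟨h3, h4⟩ := hF' P hP
  refine ⟨h3 d, fun hd u hu => ?_⟩
  obtain ⟨h5, h6⟩ := h4 u hu d hd
  exact ⟨by omega, h6⟩

end Pool.Agent.Results.MP_0421d9_ag.NearlyEqualSmooth
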