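import Mathlib
import Pool.Agent.Y205.MD.Free
import Pool.Agent.H248R5.Gen
import Pool.Agent.H248R6.Dim

set_option autoImplicit false

/-!
# Several multiplicities of arbitrary ratios: nonspecial in every degree, smooth above the first one

General points of the complex projective plane with multiplicities `w i`, `i = 1, …, n`. Let
`D = √(∑ (w i) ^ 2)`, let `μ` be the maximal multiplicity and `n ≤ D`. Let `E` be a set of points
with `30 μ ∑_E w i ≤ D` (for instance none). Assume that outside `E` there are `r` different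
multiplicities, `40 r μ ≤ D`, that one of them is `μ`, and that every multiplicity `v ≥ 1` attained
outside `E` is attained there `N` times with `N v ≥ 16 μ` and `N v μ ≥ 4 ∑ w i`.

Then `|d H - ∑ w i E i|` is nonspecial for EVERY `d`, and for all multiplicities `u i ≤ w i` the
system `|d H - ∑ u i E i|` is nonspecial if `∑ (w i + 1).choose 2 ≤ (d + 2).choose 2`, and its
general member is a smooth curve on the blow-up if `∑ (w i + 1).choose 2 ≤ (d + 1).choose 2`. For
`u = w` these are all the nonempty systems but the one of the smallest degree.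
-/

namespace Pool.Agent.Results.MP_0421d9_ag.SeveralMultiplicitiesSmooth

open Pool.Agent Finset Pool.Agent.H248R5 Pool.Agent.H248R6

theorem surj_of {n : ℕ} {w u : Fin n → ℕ} {P : Fin n → Fin 2 → ℂ} {d : ℕ}
    (h : H932R3.ExpDim ℂ w P d) (hd : ∑ i, (w i + 1).choose 2 ≤ (d + 2).choose 2)
    (hu : ∀ i, u i ≤ w i) : Function.Surjective (ev u P d) := by
  refine surj_mono hu (surj_of_ind ?_)
  have h1 : Module.finrank ℂ ↥(forms w P d) = (d + 2).choose 2 - ∑ i, (w i + 1).choose 2 := h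
  omega

theorem result (n : ℕ) (w : Fin n → ℕ) (E : Finset (Fin n)) (μ : ℕ) (D : ℝ)
    (hD : D = √(∑ i, (w i : ℝ) ^ 2)) (hμ : ∀ i, w i ≤ μ) (hμ' : ∃ i ∉ E, w i = μ)
    (hpos : ∀ i ∉ E, 1 ≤ w i) (hn : (n : ℝ) ≤ D)
    (hE : 30 * (μ : ℝ) * ∑ i ∈ E, (w i : ℝ) ≤ D)
    (hr : 40 * ((Eᶜ.image w).card : ℝ) * μ ≤ D)
    (h1 : ∀ i ∉ E, 16 * (μ : ℝ) ≤ ((Eᶜ.filter fun j => w j = w i).card : ℝ) * w i)
    (h2 : ∀ i ∉ E, 4 * ∑ j, (w j : ℝ) ≤
      ((Eᶜ.filter fun j => w j = w i).card : ℝ) * w i * μ) :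
    ∃ F : MvPolynomial (Fin n × Fin 2) ℂ, F ≠ 0 ∧
      ∀ P : Fin n → Fin 2 → ℂ,
        MvPolynomial.eval (fun ij : Fin n × Fin 2 => P ij.1 ij.2) F ≠ 0 →
        ∀ d : ℕ,
          Module.finrank ℂ ↥(forms w P d) = (d + 2).choose 2 - ∑ i, (w i + 1).choose 2 ∧
          ∀ u : Fin n → ℕ, (∀ i, u i ≤ w i) →
            (∑ i, (w i + 1).choose 2 ≤ (d + 2).choose 2 →
              Module.finrank ℂ ↥(forms u P d) = (d + 2).choose 2 - ∑ i, (u i + 1).choose 2) ∧
            (∑ i, (w i + 1).choose 2 ≤ (d + 1).choose 2 →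
              GeneralMember (forms u P d) (SmoothMember u P)) := by
  classical
  obtain ⟨F, hF, hF'⟩ := Y205.MD.every_degree_free E hD hμ hμ' hpos hn hr h1 h2 hE
  refine ⟨F.map (algebraMap ℚ ℂ) * disc ℂ n, mul_ne_zero (H932R3.map_ne_zero_of hF)
    (disc_ne ℂ n), fun P hP => ?_⟩
  rw [map_mul, MvPolynomial.eval_map] at hP
  have h3 := hF' P (left_ne_zero_of_mul hP)
  refine fun d => ⟨h3 d, fun u hu => ⟨fun hd => ?_, fun hd => ?_⟩⟩
  · have h4 := finrank_of_surj (surj_of (h3 d) hd hu)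
    omega
  · have hd0 : 0 < d := by
      rcases Nat.eq_zero_or_pos d with h0 | h0
      · exfalso
        subst h0
        obtain ⟨i, hi, -⟩ := hμ'
        have h5 : (w i + 1).choose 2 ≤ ∑ i, (w i + 1).choose 2 :=
          Finset.single_le_sum (f := fun i => (w i + 1).choose 2) (fun i _ => Nat.zero_le _)
            (Finset.mem_univ _)
        have h6 : 0 < (w i + 1).choose 2 := Nat.choose_pos (by have := hpos i hi; omega)
        have h7 : (0 + 1).choose 2 = 0 := rfl
        omega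
      · exact h0
    obtain ⟨e, rfl⟩ : ∃ e, d = e + 1 := ⟨d - 1, by omega⟩
    exact general_smooth (inj_of_disc (right_ne_zero_of_mul hP))
      (finrank_of_surj (surj_of (h3 e) hd hu)).le

end Pool.Agent.Results.MP_0421d9_ag.SeveralMultiplicitiesSmooth
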